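import Pool.Agent.H75.GG.Targets2

/-!
# LBL: the labels
-/

set_option autoImplicit false

namespace Pool.Agent.H77.GG

open Finset Filter Pool.Agent.H6.NB Pool.Agent.H70.OQ Pool.Agent.H75.GS Pool.Agent.H75.GG

theorem pf_LBL : T_LBL := by
  intro n r hr hrn
  have hr0 : 0 < r := hr
  have hcard : Fintype.card (Xn n) = 2 ^ n := by simp [Xn]
  let e : Xn n ≃ Fin (2 ^ n) := Fintype.equivFinOfCardEq hcard
  refine ⟨fun x => ⟨(e x).1 % r, Nat.mod_lt _ hr0⟩, fun k => ?_⟩
  set m : ℕ := 2 ^ n / r with hm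
  have hm1 : 1 ≤ m := Nat.div_pos hrn hr0
  have hmr : m * r ≤ 2 ^ n := Nat.div_mul_le_self _ _
  have hlt : ∀ q : Fin m, q.1 * r + k.1 < 2 ^ n := by
    intro q
    have h1 : (q.1 + 1) * r ≤ m * r := Nat.mul_le_mul_right _ q.2
    have h2 := k.2
    calc q.1 * r + k.1 < q.1 * r + r := by omega
      _ = (q.1 + 1) * r := by ring
      _ ≤ m * r := h1
      _ ≤ 2 ^ n := hmr
  have hc : m ≤ (univ.filter fun x : Xn n =>
      (⟨(e x).1 % r, Nat.mod_lt _ hr0⟩ : Fin r) = k).card := by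
    have h1 : (univ : Finset (Fin m)).card ≤ (univ.filter fun x : Xn n =>
        (⟨(e x).1 % r, Nat.mod_lt _ hr0⟩ : Fin r) = k).card := by
      apply Finset.card_le_card_of_injOn fun q : Fin m => e.symm ⟨q.1 * r + k.1, hlt q⟩
      · intro q _
        rw [Finset.mem_coe, Finset.mem_filter]
        refine ⟨Finset.mem_univ _, ?_⟩
        apply Fin.ext
        simp only [Equiv.apply_symm_apply]
        rw [Nat.mul_add_mod', Nat.mod_eq_of_lt k.2]
      · intro q _ q' _ h
        have h2 := e.symm.injective h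
        have h3 : q.1 * r + k.1 = q'.1 * r + k.1 := congrArg Fin.val h2
        have h4 : q.1 * r = q'.1 * r := by omega
        exact Fin.ext (Nat.eq_of_mul_eq_mul_right hr0 h4)
    simpa using h1
  have h5 : 2 ^ n ≤ 2 * r * m := by
    have h6 : 2 ^ n < (m + 1) * r := by
      have a1 := Nat.div_add_mod (2 ^ n) r
      have a2 := Nat.mod_lt (2 ^ n) hr0
      rw [← hm] at a1
      have a3 : (m + 1) * r = r * m + r := by ring
      omega
    have h7 : (m + 1) * r ≤ 2 * r * m := by nlinarith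
    omega
  have h8 : 2 ^ n ≤ 2 * r * (univ.filter fun x : Xn n =>
      (⟨(e x).1 % r, Nat.mod_lt _ hr0⟩ : Fin r) = k).card :=
    h5.trans (Nat.mul_le_mul_left _ hc)
  exact_mod_cast h8

end Pool.Agent.H77.GG
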