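import Pool.Agent.H75.GG.Targets2

/-!
# SPL: the seed is the seed of a stage
-/

set_option autoImplicit false

namespace Pool.Agent.H77.GG

open Finset Filter Pool.Agent.H6.NB Pool.Agent.H70.OQ Pool.Agent.H75.GS Pool.Agent.H75.GG

section

variable {G : Dat} (ω : Cfg G) (n : ℕ) (p : Wn n) (y : Spc G n)
  (κ : Om n (2 ^ G.aa n) → Bool) (P : Blk (fun s : Om n (2 ^ G.aa n) => ns s.1) fun s => qs s.1)

theorem put_self : put ω n p y κ P (.inl n) = ((p, y) : Wn n × Spc G n) := by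
  show (if h : n = n then h ▸ ((p, y) : Wn n × Spc G n) else ω (.inl n)) = _
  rw [dif_pos rfl]

theorem put_ne {m : ℕ} (h : m ≠ n) : put ω n p y κ P (.inl m) = ω (.inl m) := by
  show (if h : m = n then h ▸ ((p, y) : Wn n × Spc G n) else ω (.inl m)) = _
  rw [dif_neg h]

theorem put_in (s : Om n (2 ^ G.aa n)) :
    put ω n p y κ P (.inr s.1) = ((κ s, P s) : Bool × (Fin (ns s.1) → VV (qs s.1) → Bool)) := by
  show (if h : n ^ 2 ≤ s.1.length ∧ s.1.length < n ^ 2 ^ G.aa n then (κ ⟨s.1, h⟩, P ⟨s.1, h⟩)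
      else ω (.inr s.1)) = _
  rw [dif_pos s.2]

theorem put_out {s : List Bool} (h : ¬ (n ^ 2 ≤ s.length ∧ s.length < n ^ 2 ^ G.aa n)) :
    put ω n p y κ P (.inr s) = ω (.inr s) := by
  show (if h : n ^ 2 ≤ s.length ∧ s.length < n ^ 2 ^ G.aa n then (κ ⟨s, h⟩, P ⟨s, h⟩)
      else ω (.inr s)) = _
  rw [dif_neg h]

theorem cfS_self : cfS (put ω n p y κ P) n = y := by
  unfold cfS
  rw [put_self]

theorem cfT_self : cfT (put ω n p y κ P) n = p := by
  unfold cfT
  rw [put_self]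

theorem cfS_ne {m : ℕ} (h : m ≠ n) : cfS (put ω n p y κ P) m = cfS ω m := by
  unfold cfS
  rw [put_ne ω n p y κ P h]

theorem cfT_ne {m : ℕ} (h : m ≠ n) : cfT (put ω n p y κ P) m = cfT ω m := by
  unfold cfT
  rw [put_ne ω n p y κ P h]

theorem cfK_in (s : Om n (2 ^ G.aa n)) : cfK (put ω n p y κ P) s.1 = κ s := by
  unfold cfK
  rw [put_in]

theorem cfP_in (s : Om n (2 ^ G.aa n)) : cfP (put ω n p y κ P) s.1 = P s := by
  unfold cfP
  rw [put_in]

theorem cfK_out {s : List Bool} (h : ¬ (n ^ 2 ≤ s.length ∧ s.length < n ^ 2 ^ G.aa n)) :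
    cfK (put ω n p y κ P) s = cfK ω s := by
  unfold cfK
  rw [put_out ω n p y κ P h]

theorem cfP_out {s : List Bool} (h : ¬ (n ^ 2 ≤ s.length ∧ s.length < n ^ 2 ^ G.aa n)) :
    cfP (put ω n p y κ P) s = cfP ω s := by
  unfold cfP
  rw [put_out ω n p y κ P h]

end

theorem lab_row {G : Dat} {n : ℕ} (y : Spc G n) (k : Fin (G.r n)) : G.lab n (row y k) = k :=
  (y k).1.2

/-- The tables agree. -/
theorem tab_eq {G : Dat} {n : ℕ} (k : Fin (G.r n)) (p : Wn n) (y : Spc G n) (v : Nn n 1) :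
    tT (jn y univ p) (v.1, v.2) =
      UU n (bs (jn y (univ.erase k) p) (row y k) (y k).2) (row y k) v := by
  obtain ⟨x, z⟩ := v
  have key1 : ∀ (x : Xn n) (z : Ys n 0), tT (jn y univ p) (x, z) =
      tU (bs (jn y (univ.erase k) p) (row y k) (y k).2) (row y k) (x, z) := by
    intro x z
    by_cases hx : x = row y k
    · subst hx
      have h1 : row y k ∈ (univ : Finset (Fin (G.r n))).image (row y) :=
        Finset.mem_image_of_mem _ (Finset.mem_univ k)
      have h3 : (y (G.lab n (row y k))).2 = (y k).2 :=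
        congrArg (fun j => (y j).2) (lab_row y k)
      simp only [tT, tU, tb, jn, jR, bs, if_pos h1, Function.update_self, decide_true,
        Bool.or_true]
      rw [h3]
    · have h2 : x ∈ (univ.erase k).image (row y) ↔ x ∈ (univ : Finset (Fin (G.r n))).image (row y) := by
        simp only [Finset.mem_image, Finset.mem_erase, Finset.mem_univ, and_true, true_and]
        constructor
        · rintro ⟨j, _, h⟩
          exact ⟨j, h⟩
        · rintro ⟨j, h⟩
          refine ⟨j, ?_, h⟩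
          rintro rfl
          exact hx h.symm
      simp only [tT, tU, tb, jn, jR, bs, Function.update_of_ne hx, hx, decide_false, Bool.or_false,
        h2]
  exact key1 x z

theorem pf_SPL (hSEE : T_SEE) (hCLH : T_CLH) (_hNST : T_NST) (_hCOD : Pool.Agent.H6.NB.T_COD) :
    T_SPL := by
  intro G ω n k p y κ P hn
  obtain ⟨c1, c2, c3, c4⟩ := hCLH 1 n (2 ^ G.aa n) (seed ω)
  obtain ⟨s1, s2, s3, s4, s5⟩ := hSEE G (put ω n p y κ P)
  obtain ⟨t1, t2, t3, t4, t5⟩ := hSEE G ω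
  funext w
  unfold sdg
  by_cases h1 : ∃ v : Nn n 1, w = false :: nstr n 1 v
  · obtain ⟨v, rfl⟩ := h1
    rw [c1]
    have h2 : (false :: nstr n 1 v : List Bool) = pst n v.1 v.2 := rfl
    rw [h2, s1 n v.1 v.2 hn, cfS_self, cfT_self]
    exact tab_eq k p y v
  by_cases h2 : ∃ s : Om n (2 ^ G.aa n), w = key s.1
  · obtain ⟨s, rfl⟩ := h2
    rw [c2, s3, cfK_in]
    rfl
  by_cases h3 : ∃ (s : Om n (2 ^ G.aa n)) (i : Fin (ns s.1)) (v : VV (qs s.1)),
      w = Pool.Agent.H6.NB.blk s.1 i v.1 (List.ofFn v.2)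
  · obtain ⟨s, i, v, rfl⟩ := h3
    rw [c3, s4, cfP_in]
    rfl
  have h4 : clg 1 n (2 ^ G.aa n) (seed ω) w = .cst (seed ω w) := by
    rcases c4 w with h | h | h | h
    · exact absurd h h1
    · exact absurd h h2
    · exact absurd h h3
    · exact h
  rw [h4]
  show seed (put ω n p y κ P) w = seed ω w
  by_cases k1 : ∃ m x z, w = pst m x z
  · obtain ⟨m, x, z, rfl⟩ := k1
    have hm : m ≠ n := by
      rintro rfl
      exact h1 ⟨(x, z), rfl⟩
    by_cases hm0 : G.n0 ≤ m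
    · rw [s1 m x z hm0, t1 m x z hm0, cfS_ne ω n p y κ P hm, cfT_ne ω n p y κ P hm]
    · rw [s2 m x z (not_le.mp hm0), t2 m x z (not_le.mp hm0)]
  by_cases k2 : ∃ s, w = key s
  · obtain ⟨s, rfl⟩ := k2
    have hs : ¬ (n ^ 2 ≤ s.length ∧ s.length < n ^ 2 ^ G.aa n) := fun hs => h2 ⟨⟨s, hs⟩, rfl⟩
    rw [s3, t3, cfK_out ω n p y κ P hs]
  by_cases k3 : ∃ (s : List Bool) (i : Fin (ns s)) (v : VV (qs s)),
      w = Pool.Agent.H6.NB.blk s i v.1 (List.ofFn v.2)
  · obtain ⟨s, i, v, rfl⟩ := k3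
    have hs : ¬ (n ^ 2 ≤ s.length ∧ s.length < n ^ 2 ^ G.aa n) :=
      fun hs => h3 ⟨⟨s, hs⟩, i, v, rfl⟩
    rw [s4, t4, cfP_out ω n p y κ P hs]
  have e1 : seed (put ω n p y κ P) w = false := by
    by_contra h
    rw [Bool.not_eq_false] at h
    rcases s5 w h with h' | h' | h'
    · exact k1 h'
    · exact k2 h'
    · exact k3 h'
  have e2 : seed ω w = false := by
    by_contra h
    rw [Bool.not_eq_false] at h
    rcases t5 w h with h' | h' | h'
    · exact k1 h'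
    · exact k2 h'
    · exact k3 h'
  rw [e1, e2]

end Pool.Agent.H77.GG
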